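import Pool.Agent.Helper88.Ric.Stmts

/-! Module GCLO: the relation GR is closed. -/

set_option autoImplicit false

open scoped ContDiff Manifold Topology MatrixGroups LinearAlgebra.Projectivization
open Complex

noncomputable section

namespace RicP

lemma gclo_lat (m n : ℤ) (τ : ℂ) (y0 R W : ℝ) (hy : 0 < y0) (h1 : y0 ≤ τ.im) (h2 : ‖τ‖ ≤ R)
    (h : ‖(m : ℂ) * τ + (n : ℂ)‖ ≤ W) : |(m : ℝ)| ≤ W / y0 ∧ |(n : ℝ)| ≤ W + W / y0 * R := by
  have him : ((m : ℂ) * τ + (n : ℂ)).im = m * τ.im := by simp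
  have hW : 0 ≤ W := (norm_nonneg _).trans h
  have hm : |(m : ℝ)| * y0 ≤ W := by
    calc |(m : ℝ)| * y0 ≤ |(m : ℝ)| * τ.im := by gcongr
      _ = |((m : ℂ) * τ + (n : ℂ)).im| := by
          rw [him, abs_mul, abs_of_pos (by linarith : (0 : ℝ) < τ.im)]
      _ ≤ ‖(m : ℂ) * τ + (n : ℂ)‖ := Complex.abs_im_le_norm _
      _ ≤ W := h
  have hm' : |(m : ℝ)| ≤ W / y0 := by rw [le_div_iff₀ hy]; exact hm
  refine ⟨hm', ?_⟩
  have heq : (n : ℂ) = ((m : ℂ) * τ + (n : ℂ)) - (m : ℂ) * τ := by ring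
  calc |(n : ℝ)| = ‖(n : ℂ)‖ := by
        rw [← Complex.ofReal_intCast, Complex.norm_real, Real.norm_eq_abs]
    _ = ‖((m : ℂ) * τ + (n : ℂ)) - (m : ℂ) * τ‖ := by rw [← heq]
    _ ≤ ‖(m : ℂ) * τ + (n : ℂ)‖ + ‖(m : ℂ) * τ‖ := norm_sub_le _ _
    _ ≤ W + W / y0 * R := by
        gcongr
        rw [norm_mul, ← Complex.ofReal_intCast, Complex.norm_real, Real.norm_eq_abs]
        gcongr

lemma gclo_int (B : ℝ) : {k : ℤ | |(k : ℝ)| ≤ B}.Finite := by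
  refine (Set.finite_Icc (-⌈B⌉) ⌈B⌉).subset ?_
  intro k hk
  have hk' : |(k : ℝ)| ≤ B := hk
  rw [abs_le] at hk'
  have hB := Int.le_ceil B
  constructor
  · have : ((-⌈B⌉ : ℤ) : ℝ) ≤ (k : ℝ) := by push_cast; linarith
    exact_mod_cast this
  · have : (k : ℝ) ≤ (⌈B⌉ : ℝ) := by linarith
    exact_mod_cast this

lemma gclo_fin (B : ℝ) : {p : SL(2, ℤ) × ℤ × ℤ | (∀ i j, |((p.1 i j : ℤ) : ℝ)| ≤ B) ∧
    |(p.2.1 : ℝ)| ≤ B ∧ |(p.2.2 : ℝ)| ≤ B}.Finite := by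
  have hSL : {γ : SL(2, ℤ) | ∀ i j, |((γ i j : ℤ) : ℝ)| ≤ B}.Finite := by
    let f : SL(2, ℤ) → (Fin 2 → Fin 2 → ℤ) := fun γ i j => γ i j
    have hf : Function.Injective f := by
      intro γ γ' h
      apply Matrix.SpecialLinearGroup.ext
      intro i j
      exact congrFun (congrFun h i) j
    have hs : {A : Fin 2 → Fin 2 → ℤ | ∀ i, A i ∈ {r : Fin 2 → ℤ | ∀ j, r j ∈
        {k : ℤ | |(k : ℝ)| ≤ B}}}.Finite :=
      Set.Finite.pi' (fun i => Set.Finite.pi' (fun j => gclo_int B))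
    exact (hs.preimage hf.injOn).subset (fun γ hγ i j => hγ i j)
  refine (hSL.prod ((gclo_int B).prod (gclo_int B))).subset ?_
  rintro ⟨γ, m, n⟩ ⟨h1, h2, h3⟩
  exact ⟨h1, h2, h3⟩

lemma gclo_jj (γ : SL(2, ℤ)) (τ : ℂ) (hτ : 0 < τ.im) : jj γ τ ≠ 0 := by
  intro h
  have him : (jj γ τ).im = (γ 1 0 : ℤ) * τ.im := by simp [jj]
  rw [h] at him
  have hc : ((γ 1 0 : ℤ) : ℝ) = 0 := by
    rcases mul_eq_zero.mp him.symm with h' | h'
    · exact h'
    · exact absurd h' hτ.ne'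
  have hc' : (γ 1 0 : ℤ) = 0 := by exact_mod_cast hc
  have hd : ((γ 1 1 : ℤ) : ℂ) = 0 := by
    have : jj γ τ = ((γ 1 0 : ℤ) : ℂ) * τ + ((γ 1 1 : ℤ) : ℂ) := rfl
    rw [h, hc'] at this
    simpa using this.symm
  have hd' : (γ 1 1 : ℤ) = 0 := by exact_mod_cast hd
  have hdet := γ.det_coe
  rw [Matrix.det_fin_two] at hdet
  rw [hc', hd'] at hdet
  norm_num at hdet

/-- `|jj|² Im (mob γ τ) = Im τ` -/
lemma gclo_im (γ : SL(2, ℤ)) (τ : ℂ) (hτ : 0 < τ.im) :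
    ‖jj γ τ‖ ^ 2 * (mob γ τ).im = τ.im := by
  have hj := gclo_jj γ τ hτ
  have hdet := γ.det_coe
  rw [Matrix.det_fin_two] at hdet
  have hdetR : ((γ 0 0 : ℤ) : ℝ) * ((γ 1 1 : ℤ) : ℝ) - ((γ 0 1 : ℤ) : ℝ) * ((γ 1 0 : ℤ) : ℝ) = 1 := by
    exact_mod_cast hdet
  have hmob : mob γ τ * jj γ τ = ((γ 0 0 : ℤ) : ℂ) * τ + ((γ 0 1 : ℤ) : ℂ) := by
    show (((γ 0 0 : ℤ) : ℂ) * τ + ((γ 0 1 : ℤ) : ℂ)) / jj γ τ * jj γ τ = _
    rw [div_mul_cancel₀ _ hj]
  have h1 : (mob γ τ * jj γ τ * (starRingEnd ℂ) (jj γ τ)).im = ‖jj γ τ‖ ^ 2 * (mob γ τ).im := by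
    rw [mul_assoc, Complex.mul_conj, Complex.normSq_eq_norm_sq, Complex.im_mul_ofReal]
    ring
  rw [← h1, hmob]
  simp only [jj, Complex.mul_im, Complex.add_im, Complex.add_re, Complex.mul_re, Complex.conj_re,
    Complex.conj_im, Complex.intCast_re, Complex.intCast_im]
  linear_combination τ.im * hdetR

theorem st_GCLO : ST_GCLO := by
  intro M N t q q' x x' hx hx' hcl
  set S : Set (E × E) := {z : E × E | 0 < z.1.1.im ∧ 0 < z.2.1.im ∧ GR M t q q' z.1 z.2} with hS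
  rw [mem_closure_iff_frequently] at hcl
  -- continuity of the ingredients
  have hcF1 : ContinuousAt M.F₁ x.1 := (M.hF₁ x.1 hx).continuousAt
  have hcF2 : ContinuousAt M.F₂ x.1 := (M.hF₂ x.1 hx).continuousAt
  have hcF1' : ContinuousAt M.F₁ x'.1 := (M.hF₁ x'.1 hx').continuousAt
  have hcF2' : ContinuousAt M.F₂ x'.1 := (M.hF₂ x'.1 hx').continuousAt
  have hfst : ContinuousAt (fun z : E × E => z.1.1) (x, x') := by fun_prop
  have hfst' : ContinuousAt (fun z : E × E => z.2.1) (x, x') := by fun_prop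
  have hsF : ∀ (ζ : ℂ) (τ : ℂ), ContinuousAt M.F₁ τ → ContinuousAt M.F₂ τ →
      ContinuousAt (fun σ => sF M t ζ σ) τ := by
    intro ζ τ h1 h2
    unfold sF
    have h3 : ContinuousAt (fun σ => (ζ * M.F₁ σ).re) τ :=
      Complex.continuous_re.continuousAt.comp (continuousAt_const.mul h1)
    have h4 : ContinuousAt (fun σ => (ζ * M.F₂ σ).re) τ :=
      Complex.continuous_re.continuousAt.comp (continuousAt_const.mul h2)
    have h5 : ContinuousAt (fun σ => (((ζ * M.F₁ σ).re : ℝ) : ℂ)) τ :=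
      Complex.continuous_ofReal.continuousAt.comp h3
    have h6 : ContinuousAt (fun σ => (((ζ * M.F₂ σ).re : ℝ) : ℂ)) τ :=
      Complex.continuous_ofReal.continuousAt.comp h4
    exact continuousAt_const.mul ((h5.mul continuousAt_id).add h6)
  have hA : ContinuousAt (fun z : E × E => z.1.2 - sF M t (zet M q) z.1.1) (x, x') := by
    refine ContinuousAt.sub (by fun_prop) ?_
    exact ContinuousAt.comp (f := fun z : E × E => z.1.1) (g := fun σ => sF M t (zet M q) σ)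
      (hsF _ _ hcF1 hcF2) hfst
  have hA' : ContinuousAt (fun z : E × E => z.2.2 - sF M t (zet M q') z.2.1) (x, x') := by
    refine ContinuousAt.sub (by fun_prop) ?_
    exact ContinuousAt.comp (f := fun z : E × E => z.2.1) (g := fun σ => sF M t (zet M q') σ)
      (hsF _ _ hcF1' hcF2') hfst'
  -- bounds near the point
  have bd : ∀ (f : E × E → ℂ), ContinuousAt f (x, x') →
      ∀ᶠ z in 𝓝 (x, x'), ‖f z‖ ≤ ‖f (x, x')‖ + 1 := by
    intro f hf
    have : ∀ᶠ z in 𝓝 (x, x'), ‖f z‖ < ‖f (x, x')‖ + 1 :=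
      hf.norm.eventually_lt continuousAt_const (by linarith)
    exact this.mono fun z hz => hz.le
  set R : ℝ := ‖x.1‖ + 1 with hR
  set R' : ℝ := ‖x'.1‖ + 1 with hR'
  set a0 : ℝ := ‖x.2 - sF M t (zet M q) x.1‖ + 1 with ha0
  set a0' : ℝ := ‖x'.2 - sF M t (zet M q') x'.1‖ + 1 with ha0'
  have e1 : ∀ᶠ z in 𝓝 (x, x'), ‖z.1.1‖ ≤ R := bd _ hfst
  have e2 : ∀ᶠ z in 𝓝 (x, x'), ‖z.2.1‖ ≤ R' := bd _ hfst'
  have e3 : ∀ᶠ z in 𝓝 (x, x'), ‖z.1.2 - sF M t (zet M q) z.1.1‖ ≤ a0 := bd _ hA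
  have e4 : ∀ᶠ z in 𝓝 (x, x'), ‖z.2.2 - sF M t (zet M q') z.2.1‖ ≤ a0' := bd _ hA'
  have e5 : ∀ᶠ z in 𝓝 (x, x'), x.1.im / 2 < z.1.1.im :=
    continuousAt_const.eventually_lt
      (Complex.continuous_im.continuousAt.comp hfst : ContinuousAt (fun z : E × E => z.1.1.im) _)
      (by show x.1.im / 2 < x.1.im; linarith)
  have e6 : ∀ᶠ z in 𝓝 (x, x'), x'.1.im / 2 < z.2.1.im :=
    continuousAt_const.eventually_lt
      (Complex.continuous_im.continuousAt.comp hfst' : ContinuousAt (fun z : E × E => z.2.1.im) _)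
      (by show x'.1.im / 2 < x'.1.im; linarith)
  -- constants
  set y0 : ℝ := x.1.im / 2 with hy0
  set y0' : ℝ := x'.1.im / 2 with hy0'
  have hy0p : 0 < y0 := by rw [hy0]; linarith
  have hy0p' : 0 < y0' := by rw [hy0']; linarith
  have hRp : 0 < R := by positivity
  have hRp' : 0 < R' := by positivity
  set J : ℝ := R / y0' + 1 with hJ
  have hJp : 1 < J := by rw [hJ]; have : 0 < R / y0' := by positivity
                         linarith
  set B1 : ℝ := J + J / y0 * R + J / y0 with hB1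
  set B2 : ℝ := R' * J + R' * J / y0 * R + R' * J / y0 with hB2
  set W : ℝ := a0' * J + a0 with hW
  set B3 : ℝ := W + W / y0 * R + W / y0 with hB3
  have ha0p : 0 < a0 := by positivity
  have ha0p' : 0 < a0' := by positivity
  have hJ0 : 0 < J := by linarith
  have hWp : 0 < W := by positivity
  set B : ℝ := B1 + B2 + B3 with hB
  -- pointwise equations
  let P : SL(2, ℤ) × ℤ × ℤ → E × E → Prop := fun p z =>
    (q : SL(2, ZMod N) × ℂˣ) = (q' : SL(2, ZMod N) × ℂˣ) * hN M N p.1 ∧ z.2.1 = mob p.1 z.1.1 ∧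
    (z.2.2 - sF M t (zet M q') z.2.1) * jj p.1 z.1.1
      = z.1.2 - sF M t (zet M q) z.1.1 + (p.2.1 : ℂ) * z.1.1 + (p.2.2 : ℂ)
  set F : Set (SL(2, ℤ) × ℤ × ℤ) := {p : SL(2, ℤ) × ℤ × ℤ | (∀ i j, |((p.1 i j : ℤ) : ℝ)| ≤ B) ∧
    |(p.2.1 : ℝ)| ≤ B ∧ |(p.2.2 : ℝ)| ≤ B} with hF
  have hFfin : F.Finite := gclo_fin B
  have hev : ∀ᶠ z in 𝓝 (x, x'), z ∈ S → ∃ p ∈ F, P p z := by
    filter_upwards [e1, e2, e3, e4, e5, e6] with z h1 h2 h3 h4 h5 h6 hz
    obtain ⟨hz1, hz2, γ, m, n, hq, hmob, heq⟩ := hz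
    have hj := gclo_jj γ z.1.1 hz1
    have him := gclo_im γ z.1.1 hz1
    rw [← hmob] at him
    have hjn : ‖jj γ z.1.1‖ ^ 2 ≤ R / y0' := by
      rw [le_div_iff₀ hy0p']
      calc ‖jj γ z.1.1‖ ^ 2 * y0' ≤ ‖jj γ z.1.1‖ ^ 2 * z.2.1.im := by gcongr
        _ = z.1.1.im := him
        _ ≤ |z.1.1.im| := le_abs_self _
        _ ≤ ‖z.1.1‖ := Complex.abs_im_le_norm _
        _ ≤ R := h1
    have hjn' : ‖jj γ z.1.1‖ ≤ J := by
      by_contra hcon
      push Not at hcon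
      have : J ^ 2 < ‖jj γ z.1.1‖ ^ 2 := by gcongr
      nlinarith
    have hcd := gclo_lat (γ 1 0) (γ 1 1) z.1.1 y0 R J hy0p h5.le h1 hjn'
    have hab : ‖((γ 0 0 : ℤ) : ℂ) * z.1.1 + ((γ 0 1 : ℤ) : ℂ)‖ ≤ R' * J := by
      have hm : z.2.1 * jj γ z.1.1 = ((γ 0 0 : ℤ) : ℂ) * z.1.1 + ((γ 0 1 : ℤ) : ℂ) := by
        rw [hmob]
        show (((γ 0 0 : ℤ) : ℂ) * z.1.1 + ((γ 0 1 : ℤ) : ℂ)) / jj γ z.1.1 * jj γ z.1.1 = _
        rw [div_mul_cancel₀ _ hj]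
      rw [← hm, norm_mul]
      gcongr
    have habd := gclo_lat (γ 0 0) (γ 0 1) z.1.1 y0 R (R' * J) hy0p h5.le h1 hab
    have hmn : ‖(m : ℂ) * z.1.1 + (n : ℂ)‖ ≤ W := by
      have : (m : ℂ) * z.1.1 + (n : ℂ) = (z.2.2 - sF M t (zet M q') z.2.1) * jj γ z.1.1
          - (z.1.2 - sF M t (zet M q) z.1.1) := by rw [heq]; ring
      rw [this]
      calc _ ≤ ‖(z.2.2 - sF M t (zet M q') z.2.1) * jj γ z.1.1‖
            + ‖z.1.2 - sF M t (zet M q) z.1.1‖ := norm_sub_le _ _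
        _ ≤ a0' * J + a0 := by
            rw [norm_mul]; gcongr
        _ = W := rfl
    have hmnd := gclo_lat m n z.1.1 y0 R W hy0p h5.le h1 hmn
    have p1 : 0 ≤ J / y0 := by positivity
    have p2 : 0 ≤ J / y0 * R := by positivity
    have p3 : 0 ≤ R' * J := by positivity
    have p4 : 0 ≤ R' * J / y0 := by positivity
    have p5 : 0 ≤ R' * J / y0 * R := by positivity
    have p6 : 0 ≤ W / y0 := by positivity
    have p7 : 0 ≤ W / y0 * R := by positivity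
    refine ⟨(γ, m, n), ⟨?_, ?_, ?_⟩, hq, hmob, heq⟩
    · intro i j
      fin_cases i <;> fin_cases j
      · exact habd.1.trans (by rw [hB, hB1, hB2, hB3]; linarith)
      · exact habd.2.trans (by rw [hB, hB1, hB2, hB3]; linarith)
      · exact hcd.1.trans (by rw [hB, hB1, hB2, hB3]; linarith)
      · exact hcd.2.trans (by rw [hB, hB1, hB2, hB3]; linarith)
    · exact hmnd.1.trans (by rw [hB, hB1, hB2, hB3]; linarith)
    · exact hmnd.2.trans (by rw [hB, hB1, hB2, hB3]; linarith)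
  have hfr : ∃ᶠ z in 𝓝 (x, x'), ∃ p ∈ F, P p z :=
    (hcl.and_eventually hev).mono fun z hz => hz.2 hz.1
  obtain ⟨⟨γ, m, n⟩, hp⟩ : ∃ p, ∃ᶠ z in 𝓝 (x, x'), P p z := by
    by_contra hcon
    push Not at hcon
    have : ∀ᶠ z in 𝓝 (x, x'), ∀ p ∈ F, ¬ P p z := by
      rw [Filter.eventually_all_finite hFfin]
      intro p _
      exact hcon p
    exact hfr (this.mono fun z hz ⟨p, hpF, hpP⟩ => hz p hpF hpP)
  have heqc : ∀ f g : E × E → ℂ, ContinuousAt f (x, x') → ContinuousAt g (x, x') →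
      (∃ᶠ z in 𝓝 (x, x'), f z = g z) → f (x, x') = g (x, x') := by
    intro f g hf hg h
    by_contra hne
    have : ∀ᶠ z in 𝓝 (x, x'), f z ≠ g z := by
      have h1 : ContinuousAt (fun z => f z - g z) (x, x') := hf.sub hg
      have h2 : f (x, x') - g (x, x') ≠ 0 := sub_ne_zero.mpr hne
      exact (h1.eventually_ne h2).mono fun z hz => sub_ne_zero.mp hz
    exact h this
  have hj := gclo_jj γ x.1 hx
  have hcj : ContinuousAt (fun z : E × E => jj γ z.1.1) (x, x') := by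
    unfold jj; fun_prop
  have hcm : ContinuousAt (fun z : E × E => mob γ z.1.1) (x, x') := by
    unfold mob
    refine ContinuousAt.div (by fun_prop) (by fun_prop) ?_
    exact hj
  have hqq : (q : SL(2, ZMod N) × ℂˣ) = (q' : SL(2, ZMod N) × ℂˣ) * hN M N γ := by
    obtain ⟨z, hz⟩ := hp.exists
    exact hz.1
  refine ⟨γ, m, n, hqq, ?_, ?_⟩
  · exact heqc _ _ hfst' hcm (hp.mono fun z hz => hz.2.1)
  · refine heqc (fun z => (z.2.2 - sF M t (zet M q') z.2.1) * jj γ z.1.1)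
      (fun z => z.1.2 - sF M t (zet M q) z.1.1 + (m : ℂ) * z.1.1 + (n : ℂ))
      (hA'.mul hcj) ?_ (hp.mono fun z hz => hz.2.2)
    exact (hA.add (continuousAt_const.mul hfst)).add continuousAt_const

end RicP
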