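import Pool.Agent.Helper88.Ric.Stmts

/-! Module RLINK: the charts are linked. -/

set_option autoImplicit false

open scoped ContDiff Manifold Topology MatrixGroups LinearAlgebra.Projectivization
open Complex

noncomputable section

namespace RicP

/-- the relation on the index set -/
def rlink_r (M : ModData) (N : ℕ) (t : ℝ) (i j : Idx M N) : Prop :=
  ∃ x ∈ Uof i, ∃ y ∈ Uof j, ricR M t i x j y

lemma rlink_UH_I (N : ℕ) (hN : NOK N) (z : ℂ) : ((I, z) : E) ∈ UH N := by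
  have h8 : (8 : ℝ) ≤ N := by exact_mod_cast hN.2
  have hpi : Real.pi < 3.15 := Real.pi_lt_d2
  constructor
  · simp; norm_num
  · have hN0 : (0 : ℝ) < N := by linarith
    show 4 * Real.pi * (I : ℂ).im / N < 37 / 20
    rw [Complex.I_im, div_lt_iff₀ hN0]
    nlinarith [Real.pi_pos]

lemma rlink_mob_S : mob ModularGroup.S I = I := by
  simp [mob, ModularGroup.S]

lemma rlink_jj_S : jj ModularGroup.S I ≠ 0 := by
  simp [jj, ModularGroup.S]

lemma rlink_mob_T (τ : ℂ) : mob ModularGroup.T τ = τ + 1 := by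
  simp [mob, ModularGroup.T]

lemma rlink_jj_T (τ : ℂ) : jj ModularGroup.T τ ≠ 0 := by
  simp [jj, ModularGroup.T]

/-- one step along `γ` starting from a point over `i` -/
lemma rlink_step (M : ModData) (N : ℕ) (t : ℝ) (hN : NOK N) (γ : SL(2, ℤ))
    (hj : jj γ I ≠ 0) (hm : ∀ z : ℂ, ((mob γ I, z) : E) ∈ UH N) (q q' : QN M N)
    (hq : (q : SL(2, ZMod N) × ℂˣ) = (q' : SL(2, ZMod N) × ℂˣ) * RicP.hN M N γ) :
    ∃ x ∈ UH N, ∃ y ∈ UH N, GR M t q q' x y := by
  refine ⟨(I, 0), rlink_UH_I N hN 0, (mob γ I, sF M t (zet M q') (mob γ I)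
    + (0 - sF M t (zet M q) I) / jj γ I), hm _, γ, 0, 0, hq, rfl, ?_⟩
  simp only [add_sub_cancel_left, Int.cast_zero, zero_mul, add_zero]
  rw [div_mul_cancel₀ _ hj]

lemma rlink_both (hG : ST_GREQ) (M : ModData) (N : ℕ) (t : ℝ) (hN : NOK N) (γ : SL(2, ℤ))
    (hj : jj γ I ≠ 0) (hm : ∀ z : ℂ, ((mob γ I, z) : E) ∈ UH N) (q q' : QN M N)
    (hq : (q : SL(2, ZMod N) × ℂˣ) = (q' : SL(2, ZMod N) × ℂˣ) * RicP.hN M N γ) :
    rlink_r M N t (Sum.inl q) (Sum.inl q') ∧ rlink_r M N t (Sum.inl q') (Sum.inl q) := by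
  obtain ⟨x, hx, y, hy, h⟩ := rlink_step M N t hN γ hj hm q q' hq
  have hx0 : 0 < x.1.im := by have := hx.1; linarith
  exact ⟨⟨x, hx, y, hy, h⟩, ⟨y, hy, x, hx, ((hG M N t).2.1 q q' x y hx0 h).2⟩⟩

lemma rlink_inl (hG : ST_GREQ) (M : ModData) (N : ℕ) (t : ℝ) (hN : NOK N) (γ : SL(2, ℤ)) :
    ∀ q q' : QN M N,
      (q : SL(2, ZMod N) × ℂˣ) = (q' : SL(2, ZMod N) × ℂˣ) * RicP.hN M N γ →
      Relation.ReflTransGen (rlink_r M N t) (Sum.inl q) (Sum.inl q') ∧
      Relation.ReflTransGen (rlink_r M N t) (Sum.inl q') (Sum.inl q) := by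
  have hγ : γ ∈ Subgroup.closure ({ModularGroup.S, ModularGroup.T} : Set SL(2, ℤ)) := by
    rw [SpecialLinearGroup.SL2Z_generators]; exact Subgroup.mem_top γ
  induction hγ using Subgroup.closure_induction with
  | mem γ hγ =>
    intro q q' hq
    have key : rlink_r M N t (Sum.inl q) (Sum.inl q') ∧ rlink_r M N t (Sum.inl q') (Sum.inl q) := by
      rcases hγ with rfl | hγ
      · refine rlink_both hG M N t hN _ rlink_jj_S ?_ q q' hq
        intro z
        rw [rlink_mob_S]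
        exact rlink_UH_I N hN z
      · rw [Set.mem_singleton_iff] at hγ
        subst hγ
        refine rlink_both hG M N t hN _ (rlink_jj_T I) ?_ q q' hq
        intro z
        rw [rlink_mob_T]
        have h := rlink_UH_I N hN z
        constructor
        · have := h.1
          simpa using this
        · have := h.2
          simpa using this
    exact ⟨Relation.ReflTransGen.single key.1, Relation.ReflTransGen.single key.2⟩
  | one =>
    intro q q' hq
    rw [map_one, mul_one] at hq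
    have : q = q' := Subtype.ext hq
    subst this
    exact ⟨Relation.ReflTransGen.refl, Relation.ReflTransGen.refl⟩
  | mul γ γ' _ _ ih ih' =>
    intro q q' hq
    let p : QN M N := q' * ⟨RicP.hN M N γ, ⟨γ, rfl⟩⟩
    have hp : (p : SL(2, ZMod N) × ℂˣ) = (q' : SL(2, ZMod N) × ℂˣ) * RicP.hN M N γ := rfl
    have hq' : (q : SL(2, ZMod N) × ℂˣ) = (p : SL(2, ZMod N) × ℂˣ) * RicP.hN M N γ' := by
      rw [hp, hq, map_mul, mul_assoc]
    have h1 := ih p q' hp
    have h2 := ih' q p hq'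
    exact ⟨h2.1.trans h1.1, h1.2.trans h2.2⟩
  | inv γ _ ih =>
    intro q q' hq
    have : (q' : SL(2, ZMod N) × ℂˣ) = (q : SL(2, ZMod N) × ℂˣ) * RicP.hN M N γ := by
      rw [hq, mul_assoc, ← map_mul]
      simp
    have h := ih q' q this
    exact ⟨h.2, h.1⟩

lemma rlink_exp : Real.exp (-(23 / 25)) < 2 / 5 := by
  have h1 : (2.7182818283 : ℝ) < Real.exp 1 := Real.exp_one_gt_d9
  have h2 : (1 : ℝ) - 2 / 25 ≤ Real.exp (-(2 / 25)) := by
    have := Real.add_one_le_exp (-(2 / 25 : ℝ))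
    linarith
  have h3 : Real.exp (23 / 25) = Real.exp 1 * Real.exp (-(2 / 25)) := by
    rw [← Real.exp_add]; norm_num
  have h4 : (5 / 2 : ℝ) < Real.exp (23 / 25) := by
    rw [h3]
    nlinarith
  rw [Real.exp_neg, inv_lt_comm₀ (Real.exp_pos _) (by norm_num)]
  norm_num
  linarith

lemma rlink_cusp (hG : ST_GREQ) (M : ModData) (N : ℕ) (t : ℝ) (hN : NOK N) (c : Cusp M N)
    (k : ZMod N) :
    rlink_r M N t (Sum.inl (cout M c)) (Sum.inr (c, k)) ∧
    rlink_r M N t (Sum.inr (c, k)) (Sum.inl (cout M c)) := by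
  have h8 : (8 : ℝ) ≤ N := by exact_mod_cast hN.2
  have hN0 : (0 : ℝ) < N := by linarith
  have hNC : (N : ℂ) ≠ 0 := by exact_mod_cast hN0.ne'
  have hpi : Real.pi < 3.15 := Real.pi_lt_d2
  have hpi0 := Real.pi_pos
  have hpiC : (Real.pi : ℂ) ≠ 0 := by exact_mod_cast hpi0.ne'
  set Y : ℝ := 23 * N / (50 * Real.pi) with hY
  have hYN : 4 * Real.pi * Y / N = 46 / 25 := by
    rw [hY]; field_simp; norm_num
  set τ : ℂ := (Y : ℂ) * I with hτ
  have hτim : τ.im = Y := by simp [hτ]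
  set r : ℂ := ((Real.exp (-(23 / 25)) : ℝ) : ℂ) with hr
  have hexp : Complex.exp (2 * Real.pi * I * τ / N) = r := by
    rw [hr, Complex.ofReal_exp, hτ, hY]
    congr 1
    push_cast
    field_simp
    have : (I : ℂ) ^ 2 = -1 := Complex.I_sq
    linear_combination (50 : ℂ) * this
  set x₀ : E := (τ, (k.val : ℂ) * τ / N) with hx₀
  set p : E := (r, 1) with hp
  have hrnorm : ‖r‖ = Real.exp (-(23 / 25)) := by
    rw [hr, Complex.norm_real, Real.norm_of_nonneg (Real.exp_pos _).le]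
  have hrlt : ‖r‖ < 2 / 5 := by rw [hrnorm]; exact rlink_exp
  have hY45 : 4 / 5 < Y := by
    rw [hY, lt_div_iff₀ (by positivity)]
    nlinarith
  have hxU : x₀ ∈ UH N := by
    constructor
    · show 4 / 5 < τ.im
      rw [hτim]; exact hY45
    · show 4 * Real.pi * τ.im / N < 37 / 20
      rw [hτim, hYN]; norm_num
  have hpU : p ∈ UD := by
    refine ⟨?_, ?_, ?_⟩
    · show ‖r‖ < 65 / 64
      linarith
    · show ‖(1 : ℂ)‖ < 65 / 64
      rw [norm_one]; norm_num
    · show ‖r * 1‖ < 2 / 5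
      rw [mul_one]; exact hrlt
  have hD : D0 k p x₀ := by
    refine ⟨?_, ?_, ?_⟩
    · show 0 < τ.im
      rw [hτim]; linarith
    · show Complex.exp (2 * Real.pi * I * τ / N) = r * 1
      rw [mul_one]; exact hexp
    · show Complex.exp (2 * Real.pi * I * ((k.val : ℂ) * τ / N)) = 1 * (r * 1) ^ k.val
      rw [mul_one, one_mul, ← hexp, ← Complex.exp_nat_mul]
      congr 1
      ring
  have hGR : GR M t (cout M c) (cout M c) x₀ x₀ := (hG M N t).1 _ _
  exact ⟨⟨x₀, hxU, p, hpU, x₀, hD, hGR⟩, ⟨p, hpU, x₀, hxU, x₀, hD, hGR⟩⟩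

theorem st_RLINK (hG : ST_GREQ) : ST_RLINK := by
  intro M N hN t i j
  show Relation.ReflTransGen (rlink_r M N t) i j
  have hll : ∀ q q' : QN M N, Relation.ReflTransGen (rlink_r M N t) (Sum.inl q) (Sum.inl q') := by
    intro q q'
    obtain ⟨γ, hγ⟩ := (q'⁻¹ * q).2
    refine (rlink_inl hG M N t hN γ q q' ?_).1
    rw [hγ]
    simp
  have hi : ∃ q : QN M N, Relation.ReflTransGen (rlink_r M N t) i (Sum.inl q) := by
    rcases i with q | ⟨c, k⟩
    · exact ⟨q, Relation.ReflTransGen.refl⟩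
    · exact ⟨cout M c, Relation.ReflTransGen.single (rlink_cusp hG M N t hN c k).2⟩
  have hj : ∃ q : QN M N, Relation.ReflTransGen (rlink_r M N t) (Sum.inl q) j := by
    rcases j with q | ⟨c, k⟩
    · exact ⟨q, Relation.ReflTransGen.refl⟩
    · exact ⟨cout M c, Relation.ReflTransGen.single (rlink_cusp hG M N t hN c k).1⟩
  obtain ⟨q, hq⟩ := hi
  obtain ⟨q', hq'⟩ := hj
  exact hq.trans ((hll q q').trans hq')

end RicP
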